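import Pool.Agent.D0H10.BP.Stm

set_option autoImplicit false

open scoped Classical

namespace Pool.Agent.D0H70.BP

open Finset
open Pool.Agent.D0H10.BP Pool.Agent.D0H10.PS

/-- generating function -/
noncomputable def SS (A : Set ℕ) : PowerSeries (ZMod 2) := PowerSeries.mk fun n => (pA A n : ZMod 2)

theorem SS_mul {A : Set ℕ} {a : ℕ} (ha : a ∈ A) (ha0 : 0 < a) :
    (1 - PowerSeries.X ^ a) * SS A = SS (A \ {a}) := by
  ext n
  rw [sub_mul, one_mul, map_sub, PowerSeries.coeff_X_pow_mul']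
  unfold SS
  simp only [PowerSeries.coeff_mk]
  split_ifs with h
  · rw [pA_insert ha ha0 h]
    push_cast
    ring
  · rw [sub_zero, pA_congr (A := A) (B := A \ {a})]
    intro j _ hj
    simp only [Set.mem_sdiff, Set.mem_singleton_iff]
    constructor
    · intro h1
      exact ⟨h1, by omega⟩
    · exact fun h1 => h1.1

theorem SS_empty : SS ∅ = 1 := by
  ext n
  unfold SS
  rw [PowerSeries.coeff_mk, PowerSeries.coeff_one]
  split_ifs with h
  · rw [h, pA_zero]; simp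
  · have : pA ∅ n = 0 := by
      unfold pA Nat.Partition.restricted
      rw [card_eq_zero]
      refine Finset.eq_empty_of_forall_notMem fun p hp => ?_
      replace hp := ((@mem_filter _ _ (_) _ _).mp hp).2
      have h1 : p.parts = 0 := by
        rw [Multiset.eq_zero_iff_forall_notMem]
        intro i hi
        exact hp i hi
      have h2 := p.parts_sum
      rw [h1] at h2
      simp at h2
      exact h h2.symm
    rw [this]; simp

theorem SS_prod (F : Finset ℕ) (hF : ∀ a ∈ F, 0 < a) :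
    (∏ a ∈ F, (1 - PowerSeries.X ^ a)) * SS (F : Set ℕ) = 1 := by
  induction F using Finset.induction_on with
  | empty => simp [SS_empty]
  | insert a F ha ih =>
    rw [prod_insert ha, mul_comm (1 - PowerSeries.X ^ a), mul_assoc,
      SS_mul (by simp) (hF a (mem_insert_self _ _))]
    have : ((insert a F : Finset ℕ) : Set ℕ) \ {a} = (F : Set ℕ) := by
      ext x
      simp only [coe_insert, Set.mem_sdiff, Set.mem_insert_iff, mem_coe, Set.mem_singleton_iff]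
      constructor
      · rintro ⟨h1 | h1, h2⟩
        · exact absurd h1 h2
        · exact h1
      · intro h1
        exact ⟨Or.inr h1, fun h2 => ha (h2 ▸ h1)⟩
    rw [this]
    exact ih fun b hb => hF b (mem_insert_of_mem hb)

/-- exponent of two -/
def vv (j : ℕ) : ℕ := j.factorization 2

theorem vv_odd {j : ℕ} (h : ¬ 2 ∣ j) : vv j = 0 := Nat.factorization_eq_zero_of_not_dvd h

theorem vv_two_mul {j : ℕ} (h : j ≠ 0) : vv (2 * j) = vv j + 1 := by
  unfold vv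
  rw [Nat.factorization_mul (by norm_num) h]
  simp [Nat.Prime.factorization Nat.prime_two, add_comm]

theorem vv_mul_odd {d i : ℕ} (hd : ¬ 2 ∣ d) (hi : i ≠ 0) : vv (d * i) = vv i := by
  unfold vv
  have hd0 : d ≠ 0 := fun h => hd (h ▸ dvd_zero 2)
  rw [Nat.factorization_mul hd0 hi, Finsupp.add_apply,
    Nat.factorization_eq_zero_of_not_dvd hd, zero_add]

/-- the sum of the powers of two -/
def TT (x : ℕ) : ℕ := ∑ j ∈ Icc 1 x, 2 ^ vv j

theorem TT_succ (x : ℕ) : TT (x + 1) = TT x + 2 ^ vv (x + 1) := by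
  unfold TT
  rw [Finset.sum_Icc_succ_top (by omega)]

theorem TT_double (y : ℕ) : TT (2 * y) = 2 * TT y + y := by
  induction y with
  | zero => simp [TT]
  | succ y ih =>
    rw [show 2 * (y + 1) = 2 * y + 1 + 1 by ring, TT_succ, TT_succ, TT_succ, ih,
      vv_odd (show ¬ 2 ∣ 2 * y + 1 by omega), show 2 * y + 1 + 1 = 2 * (y + 1) by ring,
      vv_two_mul (by omega)]
    ring

theorem TT_mono {x y : ℕ} (h : x ≤ y) : TT x ≤ TT y := by
  unfold TT
  exact sum_le_sum_of_subset (Icc_subset_Icc_right h)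

theorem TT_pow (k : ℕ) : 2 * TT (2 ^ k) = (k + 2) * 2 ^ k := by
  induction k with
  | zero => simp [TT, vv]
  | succ k ih =>
    rw [pow_succ, mul_comm (2 ^ k) 2, TT_double]
    linear_combination 2 * ih

/-- the exponents -/
def ee (m d : ℕ) : ℕ := ∑ j ∈ (Icc 1 m).filter (fun j => d ∣ j), 2 ^ vv j

theorem ee_eq (m d : ℕ) (hd : ¬ 2 ∣ d) : ee m d = TT (m / d) := by
  have hd0 : 0 < d := Nat.pos_of_ne_zero fun h => hd (h ▸ dvd_zero 2)
  have h1 : (Icc 1 m).filter (fun j => d ∣ j) = (Icc 1 (m / d)).image (fun i => d * i) := by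
    ext j
    simp only [mem_filter, mem_Icc, mem_image]
    constructor
    · rintro ⟨⟨h1, h2⟩, i, rfl⟩
      refine ⟨i, ⟨?_, ?_⟩, rfl⟩
      · exact Nat.pos_of_ne_zero fun h => by rw [h] at h1; omega
      · rw [Nat.le_div_iff_mul_le hd0, mul_comm]; exact h2
    · rintro ⟨i, ⟨h1, h2⟩, rfl⟩
      rw [Nat.le_div_iff_mul_le hd0, mul_comm] at h2
      exact ⟨⟨Nat.mul_pos hd0 h1, h2⟩, dvd_mul_right _ _⟩
  unfold ee TT
  rw [h1, sum_image]
  · refine sum_congr rfl fun i hi => ?_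
    rw [mem_Icc] at hi
    rw [vv_mul_odd hd (by omega)]
  · intro i _ i' _ h
    exact Nat.eq_of_mul_eq_mul_left hd0 h

open Polynomial in
theorem pow_split (m j : ℕ) (hj : j ∈ Icc 1 m) :
    (X ^ j - 1 : (ZMod 2)[X]) = ∏ d ∈ (Icc 1 m).filter (fun d => ¬ 2 ∣ d),
      if d ∣ j then cyclotomic d (ZMod 2) ^ (2 ^ vv j) else 1 := by
  rw [mem_Icc] at hj
  have hj0 : j ≠ 0 := by omega
  obtain ⟨j', hj'⟩ : ∃ j', j' = j / 2 ^ vv j := ⟨_, rfl⟩
  have h1 : 2 ^ vv j * j' = j := by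
    rw [hj']; exact Nat.ordProj_mul_ordCompl_eq_self j 2
  have h2 : ¬ 2 ∣ j' := by
    rw [hj']; exact Nat.not_dvd_ordCompl Nat.prime_two hj0
  have hj'0 : 0 < j' := Nat.pos_of_ne_zero fun h => h2 (h ▸ dvd_zero 2)
  have h3 : (X ^ j - 1 : (ZMod 2)[X]) = (X ^ j' - 1) ^ (2 ^ vv j) := by
    have : Fact (Nat.Prime 2) := ⟨Nat.prime_two⟩
    rw [sub_pow_char_pow (R := (ZMod 2)[X]) (p := 2), one_pow, ← pow_mul, mul_comm j', h1]
  rw [h3, ← prod_cyclotomic_eq_X_pow_sub_one hj'0, ← Finset.prod_pow, ← Finset.prod_filter]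
  refine prod_congr ?_ fun _ _ => rfl
  ext d
  rw [Nat.mem_divisors, mem_filter, mem_filter, mem_Icc]
  constructor
  · rintro ⟨h4, -⟩
    have h5 : d ∣ j := by rw [← h1]; exact Dvd.dvd.mul_left h4 _
    refine ⟨⟨⟨?_, ?_⟩, ?_⟩, h5⟩
    · exact Nat.pos_of_dvd_of_pos h5 (by omega)
    · exact (Nat.le_of_dvd (by omega) h5).trans hj.2
    · exact fun h6 => h2 (h6.trans h4)
  · rintro ⟨⟨-, h4⟩, h5⟩
    refine ⟨?_, by omega⟩
    rw [← h1] at h5
    refine Nat.Coprime.dvd_of_dvd_mul_left ?_ h5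
    exact Nat.Coprime.pow_right _ ((Nat.coprime_comm.mp
      ((Nat.Prime.coprime_iff_not_dvd Nat.prime_two).mpr h4)))

open Polynomial in
theorem prod_split (m : ℕ) :
    (∏ j ∈ Icc 1 m, (X ^ j - 1) : (ZMod 2)[X]) =
      ∏ d ∈ (Icc 1 m).filter (fun d => ¬ 2 ∣ d), cyclotomic d (ZMod 2) ^ (ee m d) := by
  rw [prod_congr rfl fun j hj => pow_split m j hj, prod_comm]
  refine prod_congr rfl fun d _ => ?_
  rw [← prod_filter, prod_pow_eq_pow_sum]
  rfl

open Polynomial in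
/-- the polynomial identity -/
theorem poly (k : ℕ) (hk : 1 ≤ k) (B : ℕ) (hB : TT (2 ^ k) = 2 ^ B) :
    ∃ h : ℕ, 0 < h ∧ 2 ^ B ∣ h ∧ ∃ Q : (ZMod 2)[X],
      (∏ j ∈ Icc 1 (2 ^ k + 1), (X ^ j - 1) : (ZMod 2)[X]) * Q = (X - 1) * (X ^ h - 1) ∧
      Q.eval 1 ≠ 0 := by
  obtain ⟨m, hm⟩ : ∃ m, m = 2 ^ k + 1 := ⟨_, rfl⟩
  have h2k : 2 ≤ 2 ^ k := by
    calc 2 = 2 ^ 1 := by norm_num
      _ ≤ 2 ^ k := Nat.pow_le_pow_right (by norm_num) hk
  rw [← hm, prod_split]
  obtain ⟨D, hD⟩ : ∃ D, D = (Icc 1 m).filter (fun d => ¬ 2 ∣ d) := ⟨_, rfl⟩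
  rw [← hD]
  have h1D : 1 ∈ D := by
    rw [hD, mem_filter, mem_Icc]; omega
  obtain ⟨N, hN⟩ : ∃ N, N = ∏ d ∈ D, d := ⟨_, rfl⟩
  have hD0 : ∀ d ∈ D, 0 < d := by
    intro d hd
    rw [hD, mem_filter, mem_Icc] at hd; omega
  have hN0 : 0 < N := by rw [hN]; exact prod_pos hD0
  have hNodd : ¬ 2 ∣ N := by
    rw [hN, Nat.prime_two.prime.dvd_finsetProd_iff]
    rintro ⟨d, hd, h⟩
    rw [hD, mem_filter] at hd
    exact hd.2 h
  have hsub : D.erase 1 ⊆ N.divisors.erase 1 := by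
    intro d hd
    rw [mem_erase] at hd ⊢
    refine ⟨hd.1, ?_⟩
    rw [Nat.mem_divisors]
    exact ⟨by rw [hN]; exact dvd_prod_of_mem _ hd.2, hN0.ne'⟩
  have he1 : ee m 1 = 2 ^ B + 1 := by
    rw [ee_eq m 1 (by norm_num), Nat.div_one, hm, TT_succ, hB, vv_odd, pow_zero]
    intro h
    have h3 : 2 ∣ 2 ^ k := dvd_pow_self 2 (by omega)
    omega
  have hed : ∀ d ∈ D.erase 1, ee m d ≤ 2 ^ B := by
    intro d hd
    rw [mem_erase] at hd
    have h3 := hd.2
    rw [hD, mem_filter, mem_Icc] at h3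
    rw [ee_eq m d h3.2, ← hB]
    apply TT_mono
    have h4 : 3 ≤ d := by
      have := hd.1
      have h5 := h3.2
      have h6 := h3.1.1
      by_contra hc
      have : d = 2 := by omega
      exact h5 (by rw [this])
    calc m / d ≤ m / 3 := Nat.div_le_div_left h4 (by norm_num)
      _ ≤ 2 ^ k := by rw [hm]; omega
  obtain ⟨W, hW⟩ : ∃ W : (ZMod 2)[X], W = ∏ d ∈ D.erase 1, cyclotomic d (ZMod 2) ^ (ee m d) :=
    ⟨_, rfl⟩
  obtain ⟨R, hR⟩ : ∃ R : (ZMod 2)[X], R = ∑ i ∈ range N, X ^ i := ⟨_, rfl⟩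
  have hWR : W ∣ R ^ (2 ^ B) := by
    rw [hW, hR, ← prod_cyclotomic_eq_geom_sum hN0, ← prod_pow]
    refine dvd_trans (prod_dvd_prod_of_dvd _ _ fun d hd => pow_dvd_pow _ (hed d hd)) ?_
    exact prod_dvd_prod_of_subset _ _ _ hsub
  obtain ⟨Q, hQ⟩ := hWR
  have hR1 : R.eval 1 = 1 := by
    rw [hR, eval_finsetSum]
    simp only [eval_pow, eval_X, one_pow, sum_const, card_range, nsmul_eq_mul, mul_one]
    exact (ZMod.natCast_eq_one_iff_odd).mpr (by
      rw [← Nat.not_even_iff_odd, even_iff_two_dvd]; exact hNodd)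
  refine ⟨N * 2 ^ B, by positivity, dvd_mul_left _ _, Q, ?_, ?_⟩
  · rw [← mul_prod_erase D _ h1D, ← hW, he1, cyclotomic_one, mul_assoc, ← hQ]
    have h3 : (X ^ (N * 2 ^ B) - 1 : (ZMod 2)[X]) = (X ^ N - 1) ^ (2 ^ B) := by
      have : Fact (Nat.Prime 2) := ⟨Nat.prime_two⟩
      rw [sub_pow_char_pow (R := (ZMod 2)[X]) (p := 2), one_pow, ← pow_mul]
    rw [h3, pow_succ, mul_comm (_ ^ 2 ^ B) (X - 1), mul_assoc, ← mul_pow, hR]
    congr 2
    rw [mul_comm]
    exact geom_sum_mul X N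
  · intro h
    have h3 := congrArg (eval 1) hQ
    rw [eval_mul, h, mul_zero, eval_pow, hR1, one_pow] at h3
    exact one_ne_zero h3

theorem t_EXACT2 : ∀ r : ℕ, 2 ≤ r → ∃ h : ℕ, 0 < h ∧ 2 ^ (2 ^ r + r - 3) ∣ h ∧ ∀ n : ℕ,
    ((pA (Set.Icc 1 (2 ^ (2 ^ r - 2) + 1)) (n + h) : ℕ) : ZMod 2) =
      ((pA (Set.Icc 1 (2 ^ (2 ^ r - 2) + 1)) n : ℕ) : ZMod 2) + 1 := by
  intro r hr
  obtain ⟨k, hk⟩ : ∃ k, k = 2 ^ r - 2 := ⟨_, rfl⟩
  have h4 : 4 ≤ 2 ^ r := by
    calc 4 = 2 ^ 2 := by norm_num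
      _ ≤ 2 ^ r := Nat.pow_le_pow_right (by norm_num) hr
  have hk2 : k + 2 = 2 ^ r := by omega
  rw [← hk]
  have hB : TT (2 ^ k) = 2 ^ (r + k - 1) := by
    have h5 := TT_pow k
    rw [hk2, ← pow_add] at h5
    have h6 : 2 ^ (r + k) = 2 * 2 ^ (r + k - 1) := by
      rw [← pow_succ']; congr 1; omega
    omega
  obtain ⟨h, hh0, hdiv, Q, hQ, hQ1⟩ := poly k (by omega) _ hB
  refine ⟨h, hh0, ?_, ?_⟩
  · rw [show 2 ^ r + r - 3 = r + k - 1 by omega]
    exact hdiv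
  obtain ⟨P, hP⟩ : ∃ P : Polynomial (ZMod 2), P = ∏ j ∈ Icc 1 (2 ^ k + 1), (Polynomial.X ^ j - 1) :=
    ⟨_, rfl⟩
  rw [← hP] at hQ
  have hneg : ∀ p : Polynomial (ZMod 2), -p = p := fun p => CharTwo.neg_eq p
  have hP' : P = ∏ j ∈ Icc 1 (2 ^ k + 1), (1 - Polynomial.X ^ j) := by
    rw [hP]
    refine prod_congr rfl fun j _ => ?_
    rw [← neg_sub, hneg]
  have hS := SS_prod (Icc 1 (2 ^ k + 1)) (fun a ha => (mem_Icc.mp ha).1)
  rw [coe_Icc] at hS
  have hPS : (P : PowerSeries (ZMod 2)) = ∏ a ∈ Icc 1 (2 ^ k + 1), (1 - PowerSeries.X ^ a) := by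
    rw [hP', ← Polynomial.coeToPowerSeries.ringHom_apply, map_prod]
    refine prod_congr rfl fun j _ => ?_
    simp
  rw [← hPS] at hS
  obtain ⟨S, hSdef⟩ : ∃ S, S = SS (Set.Icc 1 (2 ^ k + 1)) := ⟨_, rfl⟩
  rw [← hSdef] at hS
  have hQ' : P * Q = (1 - Polynomial.X) * (1 - Polynomial.X ^ h) := by
    rw [hQ, ← neg_sub, ← neg_sub (1 : Polynomial (ZMod 2)) (Polynomial.X ^ h)]
    ring
  have hQp : (1 - PowerSeries.X) * ((1 - PowerSeries.X ^ h) * S) = (Q : PowerSeries (ZMod 2)) := by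
    have h5 := congrArg (fun p : Polynomial (ZMod 2) => (p : PowerSeries (ZMod 2))) hQ'
    simp only [Polynomial.coe_mul, Polynomial.coe_sub, Polynomial.coe_one, Polynomial.coe_X,
      Polynomial.coe_pow] at h5
    rw [← mul_assoc, ← h5, mul_right_comm, hS, one_mul]
  obtain ⟨T, hT⟩ : ∃ T, T = (1 - PowerSeries.X ^ h) * S := ⟨_, rfl⟩
  rw [← hT] at hQp
  have hcoef : ∀ n, PowerSeries.coeff n T = ∑ i ∈ range (n + 1), Q.coeff i := by
    intro n
    induction n with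
    | zero =>
      have h5 := congrArg (PowerSeries.coeff 0) hQp
      rw [sub_mul, one_mul, map_sub, PowerSeries.coeff_zero_X_mul, sub_zero,
        Polynomial.coeff_coe] at h5
      rw [h5]; simp
    | succ n ih =>
      have h5 := congrArg (PowerSeries.coeff (n + 1)) hQp
      rw [sub_mul, one_mul, map_sub, PowerSeries.coeff_succ_X_mul, Polynomial.coeff_coe] at h5
      rw [sum_range_succ, ← ih, ← h5]; ring
  have hne : P * Q ≠ 0 := by
    intro h0
    have h5 : (P : PowerSeries (ZMod 2)) * (Q : PowerSeries (ZMod 2)) = 0 := by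
      rw [← Polynomial.coe_mul, h0]; simp
    have h6 : (Q : PowerSeries (ZMod 2)) = 0 := by
      calc (Q : PowerSeries (ZMod 2)) = (P * S) * Q := by rw [hS, one_mul]
        _ = (P * Q) * S := by ring
        _ = 0 := by rw [h5, zero_mul]
    have h7 : Q = 0 := by
      rwa [Polynomial.coe_eq_zero_iff] at h6
    rw [h7] at hQ1
    simp at hQ1
  have hP0 : P ≠ 0 := left_ne_zero_of_mul hne
  have hQ0 : Q ≠ 0 := right_ne_zero_of_mul hne
  have hdeg : Q.natDegree ≤ h := by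
    have h5 := congrArg Polynomial.natDegree hQ
    rw [Polynomial.natDegree_mul hP0 hQ0] at h5
    have h6 : ((Polynomial.X - 1) * (Polynomial.X ^ h - 1) : Polynomial (ZMod 2)).natDegree
        = 1 + h := by
      have a1 : (Polynomial.X - 1 : Polynomial (ZMod 2)).Monic := by
        rw [← Polynomial.C_1]; exact Polynomial.monic_X_sub_C 1
      have a2 : (Polynomial.X ^ h - 1 : Polynomial (ZMod 2)).Monic := by
        rw [← Polynomial.C_1]; exact Polynomial.monic_X_pow_sub_C 1 hh0.ne'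
      rw [a1.natDegree_mul a2]
      have a3 : (Polynomial.X - 1 : Polynomial (ZMod 2)).natDegree = 1 := by
        rw [← Polynomial.C_1]; exact Polynomial.natDegree_X_sub_C 1
      have a4 : (Polynomial.X ^ h - 1 : Polynomial (ZMod 2)).natDegree = h := by
        rw [← Polynomial.C_1]; exact Polynomial.natDegree_X_pow_sub_C
      rw [a3, a4]
    rw [h6] at h5
    have h7 : (Polynomial.X - 1 : Polynomial (ZMod 2)) ∣ P := by
      rw [hP]
      have h8 : (Polynomial.X ^ 1 - 1 : Polynomial (ZMod 2)) ∣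
          ∏ j ∈ Icc 1 (2 ^ k + 1), (Polynomial.X ^ j - 1) :=
        dvd_prod_of_mem (fun j : ℕ => (Polynomial.X ^ j - 1 : Polynomial (ZMod 2)))
          (mem_Icc.mpr ⟨le_rfl, Nat.le_add_left 1 _⟩)
      rwa [pow_one] at h8
    have h8 := Polynomial.natDegree_le_of_dvd h7 hP0
    have a3 : (Polynomial.X - 1 : Polynomial (ZMod 2)).natDegree = 1 := by
      rw [← Polynomial.C_1]; exact Polynomial.natDegree_X_sub_C 1
    omega
  intro n
  have h5 := hcoef (n + h)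
  have h6 : ∑ i ∈ range (n + h + 1), Q.coeff i = Q.eval 1 := by
    rw [Polynomial.eval_eq_sum_range' (n := n + h + 1) (by omega)]
    simp
  have h7 : Q.eval 1 = 1 := (zmod2 _).resolve_left hQ1
  rw [h6, h7, hT, sub_mul, one_mul, map_sub, PowerSeries.coeff_X_pow_mul', if_pos (by omega),
    Nat.add_sub_cancel, hSdef] at h5
  unfold SS at h5
  rw [PowerSeries.coeff_mk, PowerSeries.coeff_mk] at h5
  rw [← h5]; ring

theorem t_EXACT : S_EXACT := by
  intro r hr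
  obtain ⟨h, h1, -, h2⟩ := t_EXACT2 r hr
  exact ⟨h, h1, h2⟩

end Pool.Agent.D0H70.BP
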