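import Pool.Agent.D0H10.BP.Stm

set_option autoImplicit false

namespace Pool.Agent.D0H70.BP

open Finset Filter Polynomial
open Pool.Agent.D0H10.BP

theorem star_int (l : ℕ) (hl : 0 < l) :
    (cyclotomic l ℤ) ∣ (∏ j ∈ Ico 1 l, (1 - X ^ j) - C (l : ℤ)) := by
  obtain ⟨n, rfl⟩ : ∃ n, l = n + 1 := ⟨l - 1, by omega⟩
  obtain ⟨μ, hμ⟩ : ∃ μ : ℂ, IsPrimitiveRoot μ (n + 1) :=
    ⟨_, Complex.isPrimitiveRoot_exp (n + 1) (by omega)⟩
  rw [cyclotomic_eq_minpoly hμ hl]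
  refine minpoly.isIntegrallyClosed_dvd (hμ.isIntegral hl) ?_
  have h1 := hμ.prod_one_sub_pow_eq_order
  rw [map_sub, map_prod]
  simp only [map_sub, map_one, map_pow, aeval_X, aeval_C]
  rw [Finset.prod_Ico_eq_prod_range, Nat.add_sub_cancel]
  have h2 : ∏ k ∈ range n, (1 - μ ^ (1 + k)) = ∏ k ∈ range n, (1 - μ ^ (k + 1)) :=
    Finset.prod_congr rfl fun k _ => by rw [add_comm]
  rw [h2, h1]
  simp

theorem t_STAR : S_STAR := by
  intro l hl h2
  have : Fact l.Prime := ⟨hl⟩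
  have h3 := star_int l hl.pos
  have h4 := Polynomial.map_dvd (Int.castRingHom (ZMod 2)) h3
  rw [map_cyclotomic_int, Polynomial.map_sub, Polynomial.map_prod] at h4
  simp only [Polynomial.map_sub, Polynomial.map_one, Polynomial.map_pow, map_X, map_C] at h4
  have h5 : ((Int.castRingHom (ZMod 2)) (l : ℤ)) = 1 := by
    have : (l : ZMod 2) = 1 := by
      have := (ZMod.natCast_eq_one_iff_odd (n := l)).mpr (hl.odd_of_ne_two h2)
      exact this
    simpa using this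
  rw [h5, C_1] at h4
  rw [← cyclotomic_prime_mul_X_sub_one (ZMod 2) l]
  obtain ⟨Q, hQ⟩ := h4
  rw [hQ]
  exact ⟨-Q, by ring⟩

end Pool.Agent.D0H70.BP
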